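import Pool.Agent.H29.Prism4

namespace Pool.Agent.Results.MP_78373f_an.Gap

open Pool.Agent.H29.Prism

/-- `P` is `r`-separated. -/
def IsSep {X : Type} [NormedAddCommGroup X] (r : ℝ) (P : Set X) : Prop :=
  ∀ x ∈ P, ∀ y ∈ P, x ≠ y → r ≤ ‖x - y‖

/-- `P` is `r`-dense. -/
def IsDns {X : Type} [NormedAddCommGroup X] (r : ℝ) (P : Set X) : Prop :=
  ∀ x : X, ∃ p ∈ P, ‖x - p‖ ≤ r

/-- simultaneous packing and covering constant -/
noncomputable def gam (X : Type) [NormedAddCommGroup X] : ℝ :=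
  sInf {r : ℝ | 0 < r ∧ ∃ P : Set X, IsDns r P ∧ IsSep 2 P}

/-- lattice simultaneous packing and covering constant -/
noncomputable def gamStar (X : Type) [NormedAddCommGroup X] : ℝ :=
  sInf {r : ℝ | 0 < r ∧ ∃ P : AddSubgroup X, IsDns r (P : Set X) ∧ IsSep 2 (P : Set X)}

noncomputable def mk (x y z t : ℝ) : LinearMap.range L := L.rangeRestrict (x, y, z, t)

lemma norm_mk (x y z t : ℝ) : ‖mk x y z t‖ = ‖ph x y z t‖ := rfl

lemma mk_sub (a b c d a' b' c' d' : ℝ) :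
    mk a b c d - mk a' b' c' d' = mk (a - a') (b - b') (c - c') (d - d') := by
  unfold mk; rw [← map_sub]; rfl

lemma mk_add (a b c d a' b' c' d' : ℝ) :
    mk a b c d + mk a' b' c' d' = mk (a + a') (b + b') (c + c') (d + d') := by
  unfold mk; rw [← map_add]; rfl

lemma mk_smul (k a b c d : ℝ) : k • mk a b c d = mk (k * a) (k * b) (k * c) (k * d) := by
  unfold mk; rw [← map_smul]; rfl

lemma mk_zero : mk 0 0 0 0 = 0 := by
  unfold mk; exact map_zero L.rangeRestrict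

lemma mk_surj (p : LinearMap.range L) : ∃ x y z t, p = mk x y z t := by
  obtain ⟨v, hv⟩ := L.surjective_rangeRestrict p
  exact ⟨v.1, v.2.1, v.2.2.1, v.2.2.2, hv.symm⟩

lemma eq_of_mk {a b c d : ℝ} (h : mk a b c d = 0) : a = 0 ∧ b = 0 ∧ c = 0 ∧ d = 0 := by
  have h0 : ‖ph a b c d‖ ≤ 0 := by rw [← norm_mk, h, norm_zero]
  rw [le_iff le_rfl] at h0
  simp only [Fle, abs_le] at h0
  obtain ⟨⟨p0, q0⟩, -, -, -, -, -, -, -, -, -, -, -, -, ⟨p1, q1⟩, -, -, -, ⟨p2, q2⟩, -, -, -,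
    ⟨p3, q3⟩, -⟩ := h0
  refine ⟨?_, ?_, ?_, ?_⟩ <;> linarith

lemma L_inj : Function.Injective L := by
  rw [injective_iff_map_eq_zero]
  rintro ⟨a, b, c, d⟩ h
  obtain ⟨e1, e2, e3, e4⟩ := eq_of_mk (a := a) (b := b) (c := c) (d := d) (Subtype.ext h)
  simp [e1, e2, e3, e4]

lemma lower (P : AddSubgroup (LinearMap.range L)) (r : ℝ) 
    (hd : IsDns r (P : Set (LinearMap.range L)))
    (hs : IsSep 2 (P : Set (LinearMap.range L))) : 1 + 17/6400000 ≤ r := by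
  by_contra hr
  push Not at hr
  refine not_goodN (Q := fun a b c d => mk a b c d ∈ P) ⟨?_, ?_, ?_, ?_⟩
  · intro a b c d a' b' c' d' h h'
    rw [← mk_sub]; exact P.sub_mem h h'
  · intro a b c d a' b' c' d' h h'
    rw [← mk_add]; exact P.add_mem h h'
  · intro a b c d h hf
    apply eq_of_mk
    by_contra hne
    have := hs _ h 0 P.zero_mem hne
    rw [sub_zero, norm_mk] at this
    exact absurd ((lt_iff two_pos a b c d).2 hf) (not_lt.2 this)
  · intro x y z t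
    obtain ⟨p, hp, hn⟩ := hd (mk x y z t)
    obtain ⟨a, b, c, d, rfl⟩ := mk_surj p
    refine ⟨a, b, c, d, hp, ?_⟩
    rw [mk_sub, norm_mk] at hn
    exact (le_iff (by norm_num) _ _ _ _).1 (hn.trans hr.le)

lemma norm_sc (p q : LinearMap.range L) :
    ‖(400000/399999 : ℝ) • p - (400000/399999 : ℝ) • q‖ = 400000/399999 * ‖p - q‖ := by
  have h : (400000/399999 : ℝ) • p - (400000/399999 : ℝ) • q = (400000/399999 : ℝ) • (p - q) :=
    (smul_sub _ _ _).symm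
  rw [h, norm_smul, Real.norm_eq_abs, abs_of_pos (by norm_num)]

lemma upper : ∃ P : Set (LinearMap.range L), IsDns (400000/399999) P ∧ IsSep 2 P := by
  refine ⟨{p | ∃ a b c d : ℤ, Hs a b c d ∧ p = (400000/399999 : ℝ) • mk a b c d}, ?_, ?_⟩
  · intro p
    obtain ⟨x, y, z, t, hp⟩ := mk_surj ((399999/400000 : ℝ) • p)
    obtain ⟨a, b, c, d, hH, hB⟩ := covH x y z t
    refine ⟨_, ⟨a, b, c, d, hH, rfl⟩, ?_⟩
    have e : p = (400000/399999 : ℝ) • mk x y z t := by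
      rw [← hp, smul_smul]; norm_num
    have h1 : ‖mk x y z t - mk a b c d‖ ≤ 1 := by
      rw [mk_sub, norm_mk]
      exact (le_iff zero_le_one _ _ _ _).2 (Fle_of_Bc hB)
    rw [e, norm_sc]
    linarith
  · rintro _ ⟨a, b, c, d, hH, rfl⟩ _ ⟨a', b', c', d', hH', rfl⟩ hne
    have h1 : 2 - 1/200000 ≤ ‖mk a b c d - mk a' b' c' d'‖ := by
      by_contra hlt
      push Not at hlt
      rw [mk_sub, norm_mk, lt_iff (by norm_num)] at hlt
      obtain ⟨e1, e2, e3, e4⟩ := sepH hH hH' hlt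
      apply hne
      rw [e1, e2, e3, e4]
    rw [norm_sc]
    linarith

noncomputable def lat : AddSubgroup (LinearMap.range L) where
  carrier := {p | ∃ a b c d : ℤ, p = mk (4 * a) (4 * b) (4 * c) (4 * d)}
  add_mem' := by
    rintro _ _ ⟨a, b, c, d, rfl⟩ ⟨a', b', c', d', rfl⟩
    refine ⟨a + a', b + b', c + c', d + d', ?_⟩
    rw [mk_add]; push_cast; congr 1 <;> ring
  zero_mem' := ⟨0, 0, 0, 0, by simp [mk_zero]⟩
  neg_mem' := by
    rintro _ ⟨a, b, c, d, rfl⟩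
    refine ⟨-a, -b, -c, -d, ?_⟩
    rw [← zero_sub, ← mk_zero, mk_sub]; push_cast; congr 1 <;> ring

lemma near4 (x : ℝ) : ∃ a : ℤ, -2 ≤ x - 4 * a ∧ x - 4 * a ≤ 2 := by
  refine ⟨⌊(x + 2) / 4⌋, ?_, ?_⟩
  · linarith [Int.floor_le ((x + 2) / 4)]
  · linarith [Int.lt_floor_add_one ((x + 2) / 4)]

lemma int0 {a a' : ℤ} (h1 : -3 < 4 * (a : ℝ) - 4 * a') (h2 : 4 * (a : ℝ) - 4 * a' < 3) :
    a = a' := by
  have i1 : -3 < 4 * a - 4 * a' := by exact_mod_cast h1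
  have i2 : 4 * a - 4 * a' < 3 := by exact_mod_cast h2
  omega

lemma lat_ok : IsDns 4 (lat : Set (LinearMap.range L)) ∧
    IsSep 2 (lat : Set (LinearMap.range L)) := by
  constructor
  · intro p
    obtain ⟨x, y, z, t, rfl⟩ := mk_surj p
    obtain ⟨a, h1, h2⟩ := near4 x
    obtain ⟨b, h3, h4⟩ := near4 y
    obtain ⟨c, h5, h6⟩ := near4 z
    obtain ⟨d, h7, h8⟩ := near4 t
    refine ⟨_, ⟨a, b, c, d, rfl⟩, ?_⟩
    rw [mk_sub, norm_mk, le_iff (by norm_num)]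
    apply Fle_of_Bc
    simp only [Bc, abs_le]
    refine ⟨⟨?_, ?_⟩, ⟨?_, ?_⟩, ⟨?_, ?_⟩, ⟨?_, ?_⟩, ⟨?_, ?_⟩, ⟨?_, ?_⟩, ⟨?_, ?_⟩, ⟨?_, ?_⟩⟩ <;>
      linarith
  · rintro _ ⟨a, b, c, d, rfl⟩ _ ⟨a', b', c', d', rfl⟩ hne
    by_contra hlt
    push Not at hlt
    rw [mk_sub, norm_mk, lt_iff (by norm_num)] at hlt
    simp only [Flt, abs_lt] at hlt
    obtain ⟨⟨p0, q0⟩, -, -, -, -, -, -, -, -, -, -, -, -, ⟨p1, q1⟩, -, -, -, ⟨p2, q2⟩, -, -, -,
      ⟨p3, q3⟩, -⟩ := hlt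
    apply hne
    rw [int0 (a := a) (a' := a') (by linarith) (by linarith),
      int0 (a := b) (a' := b') (by linarith) (by linarith),
      int0 (a := c) (a' := c') (by linarith) (by linarith),
      int0 (a := d) (a' := d') (by linarith) (by linarith)]

theorem result : ∃ (X : Type) (_ : NormedAddCommGroup X) (_ : NormedSpace ℝ X),
    Module.finrank ℝ X = 4 ∧ gam X < gamStar X := by
  refine ⟨LinearMap.range L, inferInstance, inferInstance, ?_, ?_⟩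
  · rw [LinearMap.finrank_range_of_inj L_inj]
    simp
  · have h1 : gam (LinearMap.range L) ≤ 400000/399999 :=
      csInf_le ⟨0, fun r hr => hr.1.le⟩ ⟨by norm_num, upper⟩
    have h2 : 1 + 17/6400000 ≤ gamStar (LinearMap.range L) :=
      le_csInf ⟨4, by norm_num, lat, lat_ok⟩ (fun r ⟨_, P, hd, hs⟩ => lower P r hd hs)
    have h3 : (400000/399999 : ℝ) < 1 + 17/6400000 := by norm_num
    linarith

end Pool.Agent.Results.MP_78373f_an.Gap
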